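import Mathlib

set_option autoImplicit false

namespace Pool.Agent.Results.MP_f85c9e_gt.Counter

open Set Filter Topology

def SHD (X : Type) (t : TopologicalSpace X) : Prop :=
  ∀ U : ℕ → Set X, (∀ n, IsOpen[t] (U n) ∧ (U n).Nonempty) → ∃ x : ℕ → X, (∀ n, x n ∈ U n) ∧
    ¬ ∃ (φ : ℕ → ℕ) (p : X), StrictMono φ ∧ Tendsto (x ∘ φ) atTop (@nhds X t p)

abbrev PR (X : Type) (t : TopologicalSpace X) :
    TopologicalSpace {A : Set X // A.Finite ∧ A.Nonempty} :=
  .generateFrom {W | ∃ (F : {A : Set X // A.Finite ∧ A.Nonempty}) (V : Set X),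
    IsOpen[t] V ∧ F.1 ⊆ V ∧ W = {H | F.1 ⊆ H.1 ∧ H.1 ⊆ V}}

lemma base {X : Type} [t : TopologicalSpace X] (W) (hW : IsOpen[PR X t] W) :
    ∀ F ∈ W, ∃ V, IsOpen V ∧ F.1 ⊆ V ∧ ∀ H, F.1 ⊆ H.1 → H.1 ⊆ V → H ∈ W := by
  induction hW with
  | basic s hs =>
    obtain ⟨G, V, h1, -, rfl⟩ := hs
    exact fun F hF => ⟨V, h1, hF.2, fun H h2 h3 => ⟨hF.1.trans h2, h3⟩⟩
  | univ => exact fun F _ => ⟨univ, isOpen_univ, subset_univ _, fun _ _ _ => trivial⟩
  | inter s r _ _ i1 i2 =>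
    intro F hF
    obtain ⟨V, v1, v2, v3⟩ := i1 F hF.1
    obtain ⟨Z, z1, z2, z3⟩ := i2 F hF.2
    exact ⟨V ∩ Z, v1.inter z1, subset_inter v2 z2, fun H h2 h3 =>
      ⟨v3 H h2 fun x hx => (h3 hx).1, z3 H h2 fun x hx => (h3 hx).2⟩⟩
  | sUnion S _ ih =>
    rintro F ⟨s, hs, hF⟩
    exact (ih s hs F hF).imp fun V hV => ⟨hV.1, hV.2.1, fun H h2 h3 => ⟨s, hs, hV.2.2 H h2 h3⟩⟩

abbrev S : Type := {x : ℝ → Bool // {i | x i}.Countable}

noncomputable def up (x : S) (i : ℝ) (b : Bool) : S := ⟨Function.update x.1 i b,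
  (x.2.insert i).mono fun j (h : Function.update x.1 i b j = true) => by
    by_cases e : j = i
    · exact Or.inl e
    · exact Or.inr (by rwa [Function.update_of_ne e] at h)⟩

lemma fin {V : Set S} (hV : IsOpen V) {x : S} (hx : x ∈ V) :
    ∃ C : Set ℝ, C.Finite ∧ ∀ y : S, EqOn y.1 x.1 C → y ∈ V := by
  obtain ⟨W, h1, rfl⟩ := isOpen_induced_iff.1 hV
  obtain ⟨C, u, h2, h3⟩ := isOpen_pi_iff.1 h1 _ hx
  exact ⟨C, C.finite_toSet, fun y hy => h3 fun i hi => hy hi ▸ (h2 i hi).2⟩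

theorem result : ∃ (X : Type) (t : TopologicalSpace X), T35Space X ∧
    SHD _ (PR X t) ∧ ¬ SHD X t := by
  refine ⟨S, inferInstance, inferInstance, fun U hU => ?_, fun h => ?_⟩
  · choose F hF using fun n => (hU n).2
    choose V v1 v2 v3 using fun n => base _ (hU n).1 _ (hF n)
    choose! C c1 c2 using fun n x (hx : x ∈ (F n).1) => fin (v1 n) (v2 n hx)
    have h1 : (⋃ n, ⋃ x ∈ (F n).1, C n x ∪ {i | x.1 i})ᶜ.Infinite := fun h =>
      not_countable_univ (union_compl_self _ ▸ (countable_iUnion fun n => (F n).2.1.countable.biUnion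
        fun x hx => (c1 n x hx).countable.union x.2).union h.countable)
    let j := h1.natEmbedding
    have h2 (n x) (hx : x ∈ (F n).1) (i) : (j i).1 ∉ C n x ∪ {i | x.1 i} := fun h =>
      (j i).2 (mem_iUnion.2 ⟨n, mem_biUnion hx h⟩)
    let H (n : ℕ) : {A : Set S // A.Finite ∧ A.Nonempty} :=
      ⟨(F n).1 ∪ image2 (fun x i => up x (j i) true) (F n).1 (Iic n),
        (F n).2.1.union ((F n).2.1.image2 _ (finite_Iic n)), (F n).2.2.inl⟩
    refine ⟨H, fun n => v3 n _ subset_union_left (union_subset (v2 n) ?_), fun ⟨φ, G, p1, p2⟩ => ?_⟩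
    · rintro _ ⟨x, hx, i, -, rfl⟩
      exact c2 n x hx _ fun k hk => Function.update_of_ne
        (fun e : k = j i => h2 n x hx i (Or.inl (e ▸ hk))) _ _
    have h3 (Z : Set S) (z1 : IsOpen Z) (z2 : G.1 ⊆ Z) :
        ∀ᶠ n in atTop, G.1 ⊆ (H (φ n)).1 ∧ (H (φ n)).1 ⊆ Z :=
      p2 (@IsOpen.mem_nhds _ (PR S _) _ _ (TopologicalSpace.isOpen_generateFrom_of_mem
        ⟨G, Z, z1, z2, rfl⟩) ⟨subset_rfl, z2⟩)
    obtain ⟨g, hg⟩ := G.2.2
    classical
    let π (y : S) : S := ⟨fun k => if k ∈ range (fun i => (j i).1) then false else y.1 k,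
      y.2.mono fun k h => by simpa using (by simpa using h : _ ∧ _).2⟩
    have h4 (n) (h : g ∈ (H n).1) : π g ∈ (F n).1 := by
      have k (x) (hx : x ∈ (F n).1) : π x = x := Subtype.ext (funext fun k => by
        refine ite_eq_right_iff.2 ?_
        rintro ⟨i, rfl⟩
        exact (Bool.eq_false_iff.2 fun h => h2 n x hx i (Or.inr h)).symm)
      obtain h | ⟨x, hx, i, -, rfl⟩ := h
      · rwa [k g h]
      · convert hx using 1
        refine Eq.trans (Subtype.ext (funext fun k => if_ctx_congr Iff.rfl (fun _ => rfl)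
          fun h => Function.update_of_ne (fun e => h ⟨i, e.symm⟩) _ _)) (k x hx)
    obtain ⟨n, hn, -⟩ := (h3 _ isOpen_univ (subset_univ _)).exists
    refine G.2.1.not_infinite (infinite_of_injective_forall_mem
      (f := fun i => up (π g) (j i) true) (fun a b e => by_contra fun k => ?_) fun i => ?_)
    · have := congrFun (congrArg Subtype.val e) (j a)
      simp only [up, Function.update_self] at this
      rw [Function.update_of_ne fun e => k (j.injective (Subtype.ext e))] at this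
      exact h2 _ _ (h4 _ (hn hg)) a (Or.inr this.symm)
    · by_contra k
      obtain ⟨m, ⟨k1, k2⟩, k3⟩ := ((h3 _ isOpen_compl_singleton
        (subset_compl_singleton_iff.2 k)).and (eventually_ge_atTop i)).exists
      exact k2 (Or.inr ⟨_, h4 _ (k1 hg), i, k3.trans (p1.le_apply), rfl⟩) rfl
  obtain ⟨x, -, h1⟩ := h (fun _ => univ) fun _ => ⟨isOpen_univ, ⟨⟨fun _ => false, by simp⟩, trivial⟩⟩
  have h2 : (⋃ n, {i | (x n).1 i}).Countable := countable_iUnion fun n => (x n).2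
  have := h2.to_subtype
  obtain ⟨y, φ, h3, h4⟩ := CompactSpace.tendsto_subseq
    fun n (i : (⋃ n, {i | (x n).1 i} : Set ℝ)) => (x n).1 i
  classical
  refine h1 ⟨φ, ⟨fun i => if h : i ∈ ⋃ n, {i | (x n).1 i} then y ⟨i, h⟩ else false,
    h2.mono fun i h => by_contra fun k => Bool.false_ne_true ((dif_neg k).symm.trans h)⟩, h3,
    tendsto_subtype_rng.2 (tendsto_pi_nhds.2 fun i => ?_)⟩
  dsimp only
  split_ifs with h
  · exact tendsto_pi_nhds.1 h4 ⟨i, h⟩
  · exact tendsto_const_nhds.congr fun n =>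
      (Bool.eq_false_iff.2 fun k => h (mem_iUnion.2 ⟨φ n, k⟩)).symm

end Pool.Agent.Results.MP_f85c9e_gt.Counter
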